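import Mathlib
import Pool.Agent.H33.FinUnb2

set_option autoImplicit false

open Set Cardinal Pool.Agent.H33.FinUnb

namespace Pool.Agent.Results.MP_fc6768_gt.PerfectlyNormal

theorem result (κ : Cardinal.{0}) (hκ : κ.IsRegular) (X : Set C) (hX : FinUnbMin κ X)
    (Y : Type) [TopologicalSpace Y] [T35Space Y] [Infinite Y] [PerfectlyNormalSpace Y]
    (hY : S1OmegaGamma Y) (h : LePr κ) : S1GammaOmega ((X ∪ FinSets : Set C) × Y) :=
  pn_case (gp_of_s1 hY) hκ (int_of_min hX) h

end Pool.Agent.Results.MP_fc6768_gt.PerfectlyNormal
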